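import Pool.Agent.N206.CG.Stm2

/-!
Project CG (helper206), leaf B4 (worker: helper901): the global swap in the model.
-/

set_option autoImplicit false

namespace Pool.Agent.N901.CG

open Classical Pool.Agent.N206.CG

variable (L : Loc)

theorem JJ (n : ℕ) (x : L.E n) : L.J n (L.J n x) = x := by
  have h := congrArg (fun s : Equiv.Perm (L.E n) => s x) (L.J_sq n)
  simpa using h

theorem J_inv (n : ℕ) : (L.J n)⁻¹ = L.J n := inv_eq_of_mul_eq_one_left (L.J_sq n)

/-- the global swap -/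
def jj : Equiv.Perm (Om L) where
  toFun := fun w n => L.J n (w n)
  invFun := fun w n => L.J n (w n)
  left_inv := fun w => funext fun n => JJ L n (w n)
  right_inv := fun w => funext fun n => JJ L n (w n)

theorem jj_ap (w : Om L) (n : ℕ) : jj L w n = L.J n (w n) := rfl

theorem jj_inv (w : Om L) : (jj L)⁻¹ w = jj L w := rfl

theorem jj_jj (w : Om L) : jj L (jj L w) = w := (jj L).left_inv w

theorem jj_inv' : (jj L)⁻¹ = jj L := Equiv.ext fun w => jj_inv L w

theorem psf_of (n : ℕ) (b : L.B) (w : Om L) (m : ℕ) (hnm : n ≤ m)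
    (hz : ∀ k, n ≤ k → k < m → w k = L.z k) (hm : w m ≠ L.z m) :
    psf L n b w = if w m ∈ L.X m then Function.update w (m + 1) (L.rho (m + 1) b (w (m + 1)))
      else w := by
  have h : ∃ j, n ≤ j ∧ w j ≠ L.z j := ⟨m, hnm, hm⟩
  obtain rfl : Nat.find h = m :=
    (Nat.find_eq_iff h).2 ⟨⟨hnm, hm⟩, fun k hk hc => hc.2 (hz k hc.1 hk)⟩
  unfold psf
  rw [dif_pos h]

theorem psf_none (n : ℕ) (b : L.B) (w : Om L) (h : ¬ ∃ j, n ≤ j ∧ w j ≠ L.z j) :
    psf L n b w = w := by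
  unfold psf
  rw [dif_neg h]

theorem J_z_iff (n : ℕ) (x : L.E n) : L.J n x = L.z n ↔ x = L.z n := by
  constructor
  · intro h
    have := congrArg (L.J n) h
    rwa [JJ, L.J_z] at this
  · rintro rfl
    exact L.J_z n

theorem J_rho' (n : ℕ) (b : L.B) (x : L.E n) :
    L.J n (L.rho n b (L.J n x)) = L.rho n (L.jB b) x := by
  rw [← L.J_rho n b, J_inv]
  rfl

theorem jj_update (w : Om L) (m : ℕ) (y : L.E m) :
    jj L (Function.update (jj L w) m y) = Function.update w m (L.J m y) := by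
  funext k
  rw [jj_ap]
  by_cases hk : k = m
  · subst hk
    rw [Function.update_self, Function.update_self]
  · rw [Function.update_of_ne hk, Function.update_of_ne hk, jj_ap, JJ]

theorem jj_psf (n : ℕ) (b : L.B) (w : Om L) :
    jj L (psf L n b ((jj L)⁻¹ w)) = psf L n (L.jB b) w := by
  rw [jj_inv]
  by_cases h : ∃ j, n ≤ j ∧ w j ≠ L.z j
  · obtain ⟨m, ⟨hnm, hm⟩, hmin⟩ : ∃ m, (n ≤ m ∧ w m ≠ L.z m) ∧
        ∀ k, k < m → ¬ (n ≤ k ∧ w k ≠ L.z k) :=
      ⟨Nat.find h, Nat.find_spec h, fun k hk => Nat.find_min h hk⟩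
    have hz : ∀ k, n ≤ k → k < m → w k = L.z k := by
      intro k hk hkm
      by_contra hc
      exact hmin k hkm ⟨hk, hc⟩
    rw [psf_of L n (L.jB b) w m hnm hz hm]
    rw [psf_of L n b (jj L w) m hnm (fun k hk hkm => (J_z_iff L k _).2 (hz k hk hkm))
      (fun hc => hm ((J_z_iff L m _).1 hc))]
    have hXX : w m ∈ L.X m ↔ jj L w m ∈ L.X m := L.J_X m _
    by_cases hX : w m ∈ L.X m
    · rw [if_pos hX, if_pos (hXX.1 hX), jj_update, jj_ap, J_rho']
    · rw [if_neg hX, if_neg (fun hc => hX (hXX.2 hc)), jj_jj]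
  · rw [psf_none L n (L.jB b) w h, psf_none L n b (jj L w), jj_jj]
    rintro ⟨j, h1, h2⟩
    exact h ⟨j, h1, fun hc => h2 ((J_z_iff L j _).2 hc)⟩

theorem jj_gen (n : ℕ) (g : Equiv.Perm (Om L)) (hg : g ∈ Gn L n) :
    jj L * g * (jj L)⁻¹ ∈ Gn L n := by
  have h : Gn L n ≤ (Gn L n).comap (MulAut.conj (jj L)).toMonoidHom := by
    refine (Subgroup.closure_le _).2 ?_
    rintro g (⟨r, hr, hg⟩ | ⟨b, hg⟩)
    · refine Subgroup.subset_closure (Or.inl ⟨L.J n * r * (L.J n)⁻¹, ?_, fun w => ?_⟩)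
      · rw [← L.rho_range n] at hr ⊢
        obtain ⟨b, rfl⟩ := hr
        exact ⟨L.jB b, (L.J_rho n b).symm⟩
      · change jj L (g ((jj L)⁻¹ w)) = _
        rw [hg, jj_inv, jj_update, jj_ap, J_inv]
        rfl
    · refine Subgroup.subset_closure (Or.inr ⟨L.jB b, fun w => ?_⟩)
      change jj L (g ((jj L)⁻¹ w)) = _
      rw [hg, jj_psf]
  exact h hg

/-- The global swap in the model. -/
theorem t_B4 : S_B4 L := by
  refine ⟨jj L, jj_ap L, jj_psf L, fun n g => ⟨jj_gen L n g, fun hg => ?_⟩⟩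
  have h := jj_gen L n _ hg
  have e : jj L * (jj L * g * (jj L)⁻¹) * (jj L)⁻¹ = g := by
    ext w n
    change jj L (jj L (g ((jj L)⁻¹ ((jj L)⁻¹ w)))) n = g w n
    rw [jj_jj, jj_inv, jj_inv, jj_jj]
  rwa [e] at h

end Pool.Agent.N901.CG
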